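import Pool.Agent.H500.TH.Stm
import Pool.Agent.H721.HC.Chi
import Pool.Agent.H71.HC.Crt
import Pool.Agent.H955.HC.Dir
import Pool.Agent.H738.HC.Chars

set_option autoImplicit false
set_option linter.unusedSectionVars false

/-!
# Project TH (helper500), part C2: two places (by helper385, adapted from `H721/HC/Chi.lean`)
-/

namespace Pool.Agent.H385.TH.TChi

open NumberField IsDedekindDomain Filter Topology Polynomial
open Pool.Agent.H500.HC
open Pool.Agent.H500.TH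

section loc

variable {K F : Type} [Field K] [NumberField K] [Field F] [NumberField F]
  {j : F →+* QBar} {N n : ℕ} {α : HeightOneSpectrum (𝓞 K) → Fin n → ZBar}
  {L : HeightOneSpectrum (𝓞 F)}

theorem mem_iff (D : GLoc j N n α L) (x : 𝓞 F) : x ∈ L.asIdeal ↔ D.ψ (jz j x) = 0 := by
  rw [← D.hker]
  exact RingHom.mem_ker

theorem hlk (D : GLoc j N n α L) : (D.l : D.k) = 0 := by
  have h1 := (mem_iff D _).1 D.hmem
  rwa [map_natCast, map_natCast] at h1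

theorem charP (D : GLoc j N n α L) : CharP D.k D.l := by
  obtain ⟨p, hp⟩ := CharP.exists D.k
  have h6 : p ∣ D.l := (CharP.cast_eq_zero_iff D.k p D.l).1 (hlk D)
  rcases (Nat.dvd_prime D.hl).1 h6 with h7 | h7
  · subst h7
    exact absurd (CharP.cast_eq_zero D.k 1) (by rw [Nat.cast_one]; exact one_ne_zero)
  · rwa [h7] at hp

theorem psi_congr (D : GLoc j N n α L) {x y : 𝓞 K} (h : (D.l : 𝓞 K) ∣ x - y) (σ : K →+* F) :
    D.ψ (jz j (em σ x)) = D.ψ (jz j (em σ y)) := by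
  have h1 : em σ x - em σ y ∈ L.asIdeal := by
    obtain ⟨z, hz⟩ := h
    rw [← map_sub, hz, map_mul, map_natCast]
    exact Ideal.mul_mem_right _ _ D.hmem
  have h2 := (mem_iff D _).1 h1
  rw [map_sub, map_sub, sub_eq_zero] at h2
  exact h2

theorem psi_typ (D : GLoc j N n α L) (t : (K →+* F) → ℕ) (x : 𝓞 K) :
    D.ψ (jz j (typ t x)) = ∏ σ, D.ψ (jz j (em σ x)) ^ t σ := by
  unfold typ
  rw [map_prod, map_prod]
  refine Finset.prod_congr rfl fun σ _ => ?_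
  rw [map_pow, map_pow]

theorem psi_typ_congr (D : GLoc j N n α L) (t : (K →+* F) → ℕ) {x y : 𝓞 K}
    (h : (D.l : 𝓞 K) ∣ x - y) : D.ψ (jz j (typ t x)) = D.ψ (jz j (typ t y)) := by
  rw [psi_typ, psi_typ]
  exact Finset.prod_congr rfl fun σ _ => by rw [psi_congr D h σ]

/-- the place with two sets of local data: the roots in characteristic zero -/
theorem alpha_eq {h : ℕ} (hh : 0 < h) {P : HeightOneSpectrum (𝓞 K) → (𝓞 F)[X]}
    (hP : ∀ v : HeightOneSpectrum (𝓞 K), (N : 𝓞 K) ∉ v.asIdeal →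
      (P v).map (jz j) = ∏ i, (X - Polynomial.C (α v i)))
    {t : Fin n → (K →+* F) → ℕ} (ht : TypN j N n h α t) (D : GLoc j N n α L)
    (hbig : 2 * (n * Module.finrank ℚ F) < D.l) {v : HeightOneSpectrum (𝓞 K)} {y : 𝓞 K}
    (hv : v.asIdeal = Ideal.span {y}) (hNv : (N : 𝓞 K) ∉ v.asIdeal)
    (hlv : (D.l : 𝓞 K) ∉ v.asIdeal) (hy : InRay (N * D.l) y) :
    ∃ π : Equiv.Perm (Fin n), ∀ i, α v (π i) = jz j (typ (t i) y) := by
  obtain ⟨π, hπ⟩ := ht v hNv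
  refine ⟨π, fun i => ?_⟩
  have hyN : InRay N y := hy.mono (Dvd.intro _ rfl)
  obtain ⟨m, hm, hpow⟩ := hπ i (y ^ h) (hyN.pow h) (by rw [hv, Ideal.span_singleton_pow])
  rw [typ_pow, map_pow, ← pow_mul] at hpow
  have hz0 : jz j (typ (t i) y) ≠ 0 := fun h0 =>
    typ_ne_zero (t i) hy.1 (jz_inj j (h0.trans (map_zero _).symm))
  have hhm : 0 < h * m := Nat.mul_pos hh hm
  obtain ⟨ζ, hζ, hαζ⟩ := exists_ratio hhm hz0 hpow
  -- reduction
  have hψα : D.ψ (α v (π i)) = 1 := by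
    obtain ⟨π', hπ'⟩ := D.hroots v hNv hlv
    have h1 := hπ' (π'.symm (π i))
    rw [Equiv.apply_symm_apply] at h1
    rw [h1, hv]
    exact (D.hray _).ray y hy
  have hψz : D.ψ (jz j (typ (t i) y)) = 1 := by
    have h1 : (D.l : 𝓞 K) ∣ y - 1 := dvd_trans (by
      rw [Nat.cast_mul]
      exact Dvd.intro_left _ rfl) hy.2.1
    rw [psi_typ_congr D (t i) h1, typ_one, map_one, map_one]
  have hψζ : D.ψ ζ = 1 := by
    have h1 := congrArg D.ψ hαζ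
    rwa [map_mul, hψα, hψz, mul_one, eq_comm] at h1
  -- the degree
  have hdeg : (minpoly ℚ (ζ : QBar)).natDegree ≤ n * Module.finrank ℚ F := by
    set f : F[X] := (P v).map (algebraMap (𝓞 F) F) with hf
    have hfj : f.map j = (∏ i, (X - Polynomial.C (α v i))).map (algebraMap ZBar QBar) := by
      rw [← hP v hNv, hf, Polynomial.map_map, Polynomial.map_map]
      rfl
    have hfj2 : f.map j = ∏ i, (X - Polynomial.C ((algebraMap ZBar QBar) (α v i))) := by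
      rw [hfj, Polynomial.map_prod]
      refine Finset.prod_congr rfl fun i _ => ?_
      rw [Polynomial.map_sub, Polynomial.map_X, Polynomial.map_C]
    have hfn : f.natDegree = n := by
      have h1 : (f.map j).natDegree = n := by
        rw [hfj2, natDegree_prod_of_monic _ _ fun i _ => monic_X_sub_C _]
        simp
      rwa [natDegree_map] at h1
    have hf0 : f ≠ 0 := by
      intro h0
      have h1 : f.map j ≠ 0 := by
        rw [hfj2]
        exact Finset.prod_ne_zero_iff.2 fun i _ => X_sub_C_ne_zero _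
      rw [h0, Polynomial.map_zero] at h1
      exact h1 rfl
    have hroot : (f.map j).eval (algebraMap ZBar QBar (α v (π i))) = 0 := by
      rw [hfj2, eval_prod]
      exact Finset.prod_eq_zero (Finset.mem_univ (π i)) (by simp)
    obtain ⟨F', _, _, ι, e, h1, h2, a, ha⟩ := deg_adj j f hf0 hroot
    have h3 : (ζ : QBar) = ι (a / e ((typ (t i) y : 𝓞 F) : F)) := by
      have h4 : ι (e ((typ (t i) y : 𝓞 F) : F)) = algebraMap ZBar QBar (jz j (typ (t i) y)) := by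
        have : ι (e ((typ (t i) y : 𝓞 F) : F)) = (ι.comp e) ((typ (t i) y : 𝓞 F) : F) := rfl
        rw [this, h2]
        rfl
      rw [map_div₀, ha, h4, hαζ, map_mul]
      have h5 : algebraMap ZBar QBar (jz j (typ (t i) y)) ≠ 0 := fun h0 =>
        hz0 (zq_inj (h0.trans (map_zero _).symm))
      rw [mul_div_assoc, div_self h5, mul_one]
    rw [h3]
    refine (deg_el ι _).trans (h1.trans ?_)
    rw [hfn]
  have hone := ru_one D.ψ D.hl (hlk D) hbig hdeg hhm hζ hψζ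
  rw [hαζ, hone, one_mul]

end loc

section ray

variable {K : Type} [Field K] [NumberField K]

/-- elements of the ray modulo `M` in a class modulo `l` -/
theorem exists_ray {l M : ℕ} (hl : l.Prime) (hM : 0 < M) (hlM : ¬ l ∣ M) (a : 𝓞 K) :
    ∃ x : 𝓞 K, InRay M x ∧ (l : 𝓞 K) ∣ x - a := by
  have hcop : IsCoprime (l : ℤ) (M : ℤ) :=
    Nat.isCoprime_iff_coprime.2 ((Nat.Prime.coprime_iff_not_dvd hl).2 hlM)
  obtain ⟨c, b, hab⟩ := hcop
  have hab' : (c : 𝓞 K) * (l : 𝓞 K) + (b : 𝓞 K) * (M : 𝓞 K) = 1 := by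
    exact_mod_cast congrArg (fun z : ℤ => (z : 𝓞 K)) hab
  obtain ⟨n, hn0, hn1⟩ := Pool.Agent.H71.HC.Crt.exists_pos
    (a + (c : 𝓞 K) * (l : 𝓞 K) * (1 - a)) (M * l) (Nat.mul_pos hM hl.pos)
  refine ⟨_, ⟨hn0, ?_, hn1⟩, ?_⟩
  · refine ⟨(b : 𝓞 K) * (a - 1) + (n : 𝓞 K) * (l : 𝓞 K), ?_⟩
    push_cast
    linear_combination (1 - a) * hab'
  · refine ⟨(c : 𝓞 K) * (1 - a) + (n : 𝓞 K) * (M : 𝓞 K), ?_⟩
    push_cast
    ring

theorem mk_iff {l : ℕ} {x y : 𝓞 K} : Ideal.Quotient.mk (Ideal.span {(l : 𝓞 K)}) x =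
    Ideal.Quotient.mk (Ideal.span {(l : 𝓞 K)}) y ↔ (l : 𝓞 K) ∣ x - y := by
  rw [Ideal.Quotient.eq, Ideal.mem_span_singleton]

theorem coprime_cast {N l : ℕ} (hl : l.Prime) (h : ¬ l ∣ N) : IsCoprime (N : 𝓞 K) (l : 𝓞 K) := by
  have hcop : IsCoprime (l : ℤ) (N : ℤ) :=
    Nat.isCoprime_iff_coprime.2 ((Nat.Prime.coprime_iff_not_dvd hl).2 h)
  obtain ⟨c, b, hab⟩ := hcop
  have hab' : (c : 𝓞 K) * (l : 𝓞 K) + (b : 𝓞 K) * (N : 𝓞 K) = 1 := by
    exact_mod_cast congrArg (fun z : ℤ => (z : 𝓞 K)) hab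
  exact ⟨b, c, by rw [add_comm]; exact hab'⟩

theorem ray_mul {N l : ℕ} (hl : l.Prime) (h : ¬ l ∣ N) {x : 𝓞 K} (hx : InRay N x)
    (hx' : (l : 𝓞 K) ∣ x - 1) : InRay (N * l) x := by
  refine ⟨hx.1, ?_, hx.2.2⟩
  rw [Nat.cast_mul]
  exact (coprime_cast hl h).mul_dvd hx.2.1 hx'

end ray

section chars

variable {K F : Type} [Field K] [NumberField K] [Field F] [NumberField F]
  {j : F →+* QBar} {N n : ℕ} {α : HeightOneSpectrum (𝓞 K) → Fin n → ZBar}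
  {L : HeightOneSpectrum (𝓞 F)}

/-- the characters depend only on the class modulo `l` -/
theorem chi_congr (hN : 0 < N) (D : GLoc j N n α L) (i : Fin n) {x x' z : 𝓞 K} (hx : InRay N x)
    (hx' : InRay N x') (hz : (D.l : 𝓞 K) ∣ x * z - 1) (h : (D.l : 𝓞 K) ∣ x - x') :
    D.χ i (Ideal.span {x}) = D.χ i (Ideal.span {x'}) := by
  obtain ⟨w, hw, hwz⟩ := exists_ray D.hl hN D.hlN z
  have h1 : (D.l : 𝓞 K) ∣ x * w - 1 := by
    have := dvd_add (hwz.mul_left x) hz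
    have e : x * (w - z) + (x * z - 1) = x * w - 1 := by ring
    rwa [e] at this
  have h2 : (D.l : 𝓞 K) ∣ x' * w - 1 := by
    have := dvd_sub h1 (h.mul_right w)
    have e : x * w - 1 - (x - x') * w = x' * w - 1 := by ring
    rwa [e] at this
  have e1 := (D.hray i).ray (x * w) (ray_mul D.hl D.hlN (hx.mul hw) h1)
  have e2 := (D.hray i).ray (x' * w) (ray_mul D.hl D.hlN (hx'.mul hw) h2)
  rw [← Ideal.span_singleton_mul_span_singleton, map_mul] at e1 e2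
  have h0 : D.χ i (Ideal.span {w}) ≠ 0 := by
    intro h0
    rw [h0, mul_zero] at e1
    exact zero_ne_one e1
  exact mul_right_cancel₀ h0 (e1.trans e2.symm)

/-- the characters of `(𝓞 K / l)ˣ` -/
theorem exists_f (hN : 0 < N) (D : GLoc j N n α L) (i : Fin n) :
    ∃ f : (𝓞 K ⧸ Ideal.span {(D.l : 𝓞 K)})ˣ →* D.k,
      ∀ (u : (𝓞 K ⧸ Ideal.span {(D.l : 𝓞 K)})ˣ) (x : 𝓞 K), InRay N x →
        Ideal.Quotient.mk (Ideal.span {(D.l : 𝓞 K)}) x = (u : 𝓞 K ⧸ Ideal.span {(D.l : 𝓞 K)}) →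
        f u = D.χ i (Ideal.span {x}) := by
  have hr : ∀ u : (𝓞 K ⧸ Ideal.span {(D.l : 𝓞 K)})ˣ, ∃ x : 𝓞 K, InRay N x ∧
      Ideal.Quotient.mk (Ideal.span {(D.l : 𝓞 K)}) x = (u : 𝓞 K ⧸ Ideal.span {(D.l : 𝓞 K)}) := by
    intro u
    obtain ⟨a, ha⟩ := Ideal.Quotient.mk_surjective (u : 𝓞 K ⧸ Ideal.span {(D.l : 𝓞 K)})
    obtain ⟨x, hx, hxa⟩ := exists_ray D.hl hN D.hlN a
    exact ⟨x, hx, (mk_iff.2 hxa).trans ha⟩
  choose r hr1 hr2 using hr
  have key : ∀ (u : (𝓞 K ⧸ Ideal.span {(D.l : 𝓞 K)})ˣ) (x : 𝓞 K), InRay N x →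
      Ideal.Quotient.mk (Ideal.span {(D.l : 𝓞 K)}) x = (u : 𝓞 K ⧸ Ideal.span {(D.l : 𝓞 K)}) →
      D.χ i (Ideal.span {r u}) = D.χ i (Ideal.span {x}) := by
    intro u x hx hxu
    refine chi_congr hN D i (z := r u⁻¹) (hr1 u) hx ?_ ?_
    · rw [← mk_iff, map_mul, hr2, hr2, Units.mul_inv, map_one]
    · rw [← mk_iff, hr2, hxu]
  refine ⟨⟨⟨fun u => D.χ i (Ideal.span {r u}), ?_⟩, ?_⟩, ?_⟩
  · show D.χ i (Ideal.span {r 1}) = 1
    rw [key 1 1 (InRay.one N) (map_one _), Ideal.span_singleton_one, ← Ideal.one_eq_top, map_one]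
  · intro u v
    show D.χ i (Ideal.span {r (u * v)}) = D.χ i (Ideal.span {r u}) * D.χ i (Ideal.span {r v})
    rw [key (u * v) (r u * r v) ((hr1 u).mul (hr1 v)) (by rw [map_mul, hr2, hr2, Units.val_mul]),
      ← Ideal.span_singleton_mul_span_singleton, map_mul]
  · intro u x hx hxu
    exact key u x hx hxu

/-- the algebraic characters of `(𝓞 K / l)ˣ` -/
theorem exists_g (D : GLoc j N n α L) (t : (K →+* F) → ℕ) :
    ∃ g : (𝓞 K ⧸ Ideal.span {(D.l : 𝓞 K)})ˣ →* D.k,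
      ∀ (u : (𝓞 K ⧸ Ideal.span {(D.l : 𝓞 K)})ˣ) (x : 𝓞 K),
        Ideal.Quotient.mk (Ideal.span {(D.l : 𝓞 K)}) x = (u : 𝓞 K ⧸ Ideal.span {(D.l : 𝓞 K)}) →
        g u = D.ψ (jz j (typ t x)) := by
  have hr : ∀ u : (𝓞 K ⧸ Ideal.span {(D.l : 𝓞 K)})ˣ, ∃ x : 𝓞 K,
      Ideal.Quotient.mk (Ideal.span {(D.l : 𝓞 K)}) x = (u : 𝓞 K ⧸ Ideal.span {(D.l : 𝓞 K)}) :=
    fun u => Ideal.Quotient.mk_surjective _
  choose r hr2 using hr
  have key : ∀ (u : (𝓞 K ⧸ Ideal.span {(D.l : 𝓞 K)})ˣ) (x : 𝓞 K),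
      Ideal.Quotient.mk (Ideal.span {(D.l : 𝓞 K)}) x = (u : 𝓞 K ⧸ Ideal.span {(D.l : 𝓞 K)}) →
      D.ψ (jz j (typ t (r u))) = D.ψ (jz j (typ t x)) := by
    intro u x hxu
    refine psi_typ_congr D t ?_
    rw [← mk_iff, hr2, hxu]
  refine ⟨⟨⟨fun u => D.ψ (jz j (typ t (r u))), ?_⟩, ?_⟩, ?_⟩
  · show D.ψ (jz j (typ t (r 1))) = 1
    rw [key 1 1 (map_one _), typ_one, map_one, map_one]
  · intro u v
    show D.ψ (jz j (typ t (r (u * v)))) = D.ψ (jz j (typ t (r u))) * D.ψ (jz j (typ t (r v)))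
    rw [key (u * v) (r u * r v) (by rw [map_mul, hr2, hr2, Units.val_mul]), typ_mul, map_mul,
      map_mul]
  · intro u x hxu
    exact key u x hxu

/-- primes with prescribed residues -/
theorem exists_prime (hDir : S_Dir) (hN : 0 < N) (D : GLoc j N n α L) {l' : ℕ} (hl' : l'.Prime)
    (hne : D.l ≠ l') (u : (𝓞 K ⧸ Ideal.span {(D.l : 𝓞 K)})ˣ) :
    ∃ (v : HeightOneSpectrum (𝓞 K)) (y : 𝓞 K), v.asIdeal = Ideal.span {y} ∧
      (N : 𝓞 K) ∉ v.asIdeal ∧ (D.l : 𝓞 K) ∉ v.asIdeal ∧ (l' : 𝓞 K) ∉ v.asIdeal ∧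
      InRay (N * l') y ∧
      Ideal.Quotient.mk (Ideal.span {(D.l : 𝓞 K)}) y = (u : 𝓞 K ⧸ Ideal.span {(D.l : 𝓞 K)}) := by
  have hM0 : 0 < N * l' := Nat.mul_pos hN hl'.pos
  have hM1 : ¬ D.l ∣ N * l' := by
    intro h
    rcases (D.hl.dvd_mul).1 h with h1 | h1
    · exact D.hlN h1
    · exact hne ((Nat.prime_dvd_prime_iff_eq D.hl hl').1 h1)
  obtain ⟨a, ha⟩ := Ideal.Quotient.mk_surjective (u : 𝓞 K ⧸ Ideal.span {(D.l : 𝓞 K)})
  obtain ⟨z, hz⟩ := Ideal.Quotient.mk_surjective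
    ((u⁻¹ : (𝓞 K ⧸ Ideal.span {(D.l : 𝓞 K)})ˣ) : 𝓞 K ⧸ Ideal.span {(D.l : 𝓞 K)})
  obtain ⟨y0, hy0, hy0a⟩ := exists_ray D.hl hM0 hM1 a
  have hy0u := (mk_iff.2 hy0a).trans ha
  have hdvd : (D.l : 𝓞 K) ∣ y0 * z - 1 := by
    rw [← mk_iff, map_mul, hy0u, hz, Units.mul_inv, map_one]
  have hcop : IsCoprime (Ideal.span {y0}) (Ideal.span {((N * l' * D.l : ℕ) : 𝓞 K)}) := by
    rw [Ideal.isCoprime_span_singleton_iff, Nat.cast_mul]
    refine IsCoprime.mul_right ?_ ?_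
    · obtain ⟨w, hw⟩ := hy0.2.1
      exact ⟨1, -w, by linear_combination hw⟩
    · obtain ⟨w, hw⟩ := hdvd
      exact ⟨z, -w, by linear_combination hw⟩
  obtain ⟨v, y, hv, hyd, hypos, hvp, hvB⟩ := hDir K (N * l' * D.l) y0
    (Nat.mul_pos hM0 D.hl.pos) hcop (N + D.l + l')
  have hy0' : y ≠ 0 := by
    rintro rfl
    apply v.ne_bot
    rw [hv]
    simp
  refine ⟨v, y, hv, Pool.Agent.H721.HC.Chi.not_mem_of_lt hvp hN (by omega),
    Pool.Agent.H721.HC.Chi.not_mem_of_lt hvp D.hl.pos (by omega),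
    Pool.Agent.H721.HC.Chi.not_mem_of_lt hvp hl'.pos (by omega), ⟨hy0', ?_, hypos⟩, ?_⟩
  · have h1 : ((N * l' : ℕ) : 𝓞 K) ∣ y - y0 := dvd_trans (by
      rw [Nat.cast_mul (N * l')]
      exact Dvd.intro _ rfl) hyd
    have h2 := dvd_add h1 hy0.2.1
    rwa [sub_add_sub_cancel] at h2
  · have h1 : (D.l : 𝓞 K) ∣ y - y0 := dvd_trans (by
      rw [Nat.cast_mul (N * l')]
      exact Dvd.intro_left _ rfl) hyd
    exact (mk_iff.2 h1).trans hy0u

/-- a place with large residue characteristic -/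
theorem exists_large {S : Set (HeightOneSpectrum (𝓞 F))} (hS : S.Infinite) (C : ℕ) :
    ∃ L ∈ S, ∀ l : ℕ, l.Prime → (l : 𝓞 F) ∈ L.asIdeal → C < l := by
  have hb : ((C.factorial : ℕ) : 𝓞 F) ≠ 0 := Nat.cast_ne_zero.2 C.factorial_ne_zero
  have hfin := Pool.Agent.H500.Kum.fin_mem hb
  obtain ⟨L, hL, hnot⟩ := (hS.sdiff hfin).nonempty
  refine ⟨L, hL, fun l hlp hl => ?_⟩
  by_contra hle
  push Not at hle
  apply hnot
  show ((C.factorial : ℕ) : 𝓞 F) ∈ L.asIdeal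
  exact (natCast_mem_iff_dvd hlp hl).2 (Nat.dvd_factorial hlp.pos hle)

end chars

theorem main_of : S_Dir → S_Chars → S_TChi := by
  intro hDir hChars K F _ _ _ _ hcard j N n h hN hh P α hP hinf t ht
  refine ⟨n, fun L D hD => ?_⟩
  obtain ⟨L', ⟨D'⟩, hlarge⟩ := exists_large hinf (max D.l (2 * (n * Module.finrank ℚ F)))
  have hl' := hlarge D'.l D'.hl D'.hmem
  have hne : D.l ≠ D'.l := (lt_of_le_of_lt (le_max_left _ _) hl').ne
  have hbig : 2 * (n * Module.finrank ℚ F) < D'.l := lt_of_le_of_lt (le_max_right _ _) hl'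
  choose f hf using fun i => exists_f hN D i
  choose g hg using fun i => exists_g D (t i)
  obtain ⟨π, hπ⟩ := hChars (𝓞 K ⧸ Ideal.span {(D.l : 𝓞 K)})ˣ D.k n f g (by
      intro p hp hpk
      have hch := charP D
      have h1 := (CharP.cast_eq_zero_iff D.k D.l p).1 hpk
      rw [(Nat.prime_dvd_prime_iff_eq D.hl hp).1 h1] at hD
      exact hD) (by
      intro u
      obtain ⟨v, y, hv, hNv, hlv, hlv', hy, hyu⟩ := exists_prime hDir hN D D'.hl hne u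
      have hyN : InRay N y := hy.mono (Dvd.intro _ rfl)
      obtain ⟨π0, hπ0⟩ := alpha_eq hh hP ht D' hbig hv hNv hlv' hy
      obtain ⟨π1, hπ1⟩ := D.hroots v hNv hlv
      have e1 : ∀ i, f i u = D.ψ (α v (π1 i)) := by
        intro i
        rw [hπ1 i, hv, hf i u y hyN hyu]
      have e2 : ∀ i, g i u = D.ψ (α v (π0 i)) := by
        intro i
        rw [hπ0 i, hg i u y hyu]
      simp only [e1, e2]
      rw [Equiv.prod_comp π1 fun i => X - Polynomial.C (D.ψ (α v i)),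
        Equiv.prod_comp π0 fun i => X - Polynomial.C (D.ψ (α v i))])
  refine ⟨π, fun i x hx hcop => ?_⟩
  obtain ⟨a, b, hab⟩ := (Ideal.isCoprime_span_singleton_iff _ _).1 hcop
  obtain ⟨u, hu⟩ : ∃ u : (𝓞 K ⧸ Ideal.span {(D.l : 𝓞 K)})ˣ,
      Ideal.Quotient.mk (Ideal.span {(D.l : 𝓞 K)}) x = (u : 𝓞 K ⧸ Ideal.span {(D.l : 𝓞 K)}) := by
    have h1 : Ideal.Quotient.mk (Ideal.span {(D.l : 𝓞 K)}) x *
        Ideal.Quotient.mk (Ideal.span {(D.l : 𝓞 K)}) a = 1 := by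
      rw [← map_mul, ← map_one (Ideal.Quotient.mk (Ideal.span {(D.l : 𝓞 K)})), mk_iff]
      exact ⟨-b, by linear_combination hab⟩
    exact ⟨Units.mkOfMulEqOne _ _ h1, rfl⟩
  rw [← hf i u x hx hu, hπ i, hg (π i) u x hu]

theorem main : S_TChi := main_of Pool.Agent.H955.HC.Dir.main Pool.Agent.H738.HC.Chars.main

end Pool.Agent.H385.TH.TChi
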